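import Mathlib

set_option autoImplicit false
open Set Complex

namespace Pool.Agent.H.MP_9de622

theorem cvx {a b : ℝ} (ha : 0 ≤ a) (hb : 0 ≤ b) (h : a + b = 1) (x y : ℝ) :
    (a * x + b * y) ^ 2 ≤ a * x ^ 2 + b * y ^ 2 := by
  obtain rfl : b = 1 - a := by linarith
  nlinarith [mul_nonneg (mul_nonneg ha hb) (sq_nonneg (x - y))]

theorem key (A : ℂ) (B C b c : ℝ) (hb : 0 ≤ b) : IsPreconnected {p : ℂ × ℝ × ℝ |
    ‖p.1‖ ^ 2 + p.2.1 ^ 2 + p.2.2 ^ 2 = 1 ∧ c + b * (p.2.1 ^ 2 + p.2.2 ^ 2) ≤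
      A.re * p.1.re + A.im * p.1.im + B * p.2.1 + C * p.2.2} := by
  obtain ⟨F, hF0⟩ : ∃ F : ℝ → ℝ × ℝ → ℂ × ℝ × ℝ, F = fun t w =>
    ((√(1 - w.1 ^ 2 - w.2 ^ 2) : ℝ) * exp ((arg A + t : ℝ) * I), w) := ⟨_, rfl⟩
  have F2 : ∀ t w, (F t w).2 = w := fun t w => by rw [hF0]
  have c1 : Continuous fun q : ℝ × ℝ × ℝ => F 0 q.2 := by rw [hF0]; fun_prop
  have c2 : ∀ w, Continuous fun s => F s w := fun w => by rw [hF0]; fun_prop
  have hF : ∀ t w, A.re * (F t w).1.re + A.im * (F t w).1.im =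
      ‖A‖ * √(1 - w.1 ^ 2 - w.2 ^ 2) * Real.cos t := fun t w => by
    conv_lhs => rw [← norm_mul_cos_arg A, ← norm_mul_sin_arg A]
    simp only [hF0, re_ofReal_mul, im_ofReal_mul, exp_ofReal_mul_I_re, exp_ofReal_mul_I_im, Real.cos_add,
      Real.sin_add]
    linear_combination ‖A‖ * √(1 - w.1 ^ 2 - w.2 ^ 2) * Real.cos t * Real.sin_sq_add_cos_sq (arg A)
  have hN : ∀ t w, w.1 ^ 2 + w.2 ^ 2 ≤ 1 → ‖(F t w).1‖ ^ 2 + w.1 ^ 2 + w.2 ^ 2 = 1 := fun t w h => by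
    simp only [hF0, norm_mul, norm_exp_ofReal_mul_I, norm_real, mul_one, Real.norm_eq_abs, sq_abs]
    rw [Real.sq_sqrt (by linarith)]
    ring
  let K := {q : ℝ × ℝ × ℝ | q.1 ^ 2 + q.2.1 ^ 2 + q.2.2 ^ 2 ≤ 1 ∧
    c + b * (q.2.1 ^ 2 + q.2.2 ^ 2) ≤ ‖A‖ * q.1 + B * q.2.1 + C * q.2.2}
  have hK : Convex ℝ K := fun x hx y hy s t hs ht hst => by
    have e1 := cvx hs ht hst x.1 y.1
    have e2 := cvx hs ht hst x.2.1 y.2.1
    have e3 := cvx hs ht hst x.2.2 y.2.2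
    have := mul_le_mul_of_nonneg_left hx.1 hs
    have := mul_le_mul_of_nonneg_left hy.1 ht
    have := mul_le_mul_of_nonneg_left hx.2 hs
    have := mul_le_mul_of_nonneg_left hy.2 ht
    have := mul_le_mul_of_nonneg_left (add_le_add e2 e3) hb
    have : s * c + t * c = c := by rw [← add_mul, hst, one_mul]
    constructor <;> simp <;> linarith
  have h0 := hK.isPreconnected.image _ c1.continuousOn
  have arc : ∀ p : ℂ × ℝ × ℝ, ‖p.1‖ ^ 2 + p.2.1 ^ 2 + p.2.2 ^ 2 = 1 → c + b * (p.2.1 ^ 2 + p.2.2 ^ 2) ≤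
      A.re * p.1.re + A.im * p.1.im + B * p.2.1 + C * p.2.2 → ∃ T, IsPreconnected T ∧ p ∈ T ∧
      (T ∩ (fun q => F 0 q.2) '' K).Nonempty ∧ ∀ p ∈ T, ‖p.1‖ ^ 2 + p.2.1 ^ 2 + p.2.2 ^ 2 = 1 ∧
      c + b * (p.2.1 ^ 2 + p.2.2 ^ 2) ≤ A.re * p.1.re + A.im * p.1.im + B * p.2.1 + C * p.2.2 :=
    fun p h1 h2 => by
      obtain ⟨t, ht⟩ : ∃ t, t = arg (p.1 * exp ((-arg A : ℝ) * I)) := ⟨_, rfl⟩
      have n : √(1 - p.2.1 ^ 2 - p.2.2 ^ 2) = ‖p.1‖ := by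
        rw [show 1 - p.2.1 ^ 2 - p.2.2 ^ 2 = ‖p.1‖ ^ 2 by linarith, Real.sqrt_sq (norm_nonneg _)]
      have e : F t p.2 = p := by
        have := norm_mul_exp_arg_mul_I (p.1 * exp ((-arg A : ℝ) * I))
        rw [← ht, norm_mul, norm_exp_ofReal_mul_I, mul_one] at this
        refine Prod.ext ?_ (F2 _ _)
        simp only [hF0, n]
        push_cast at this ⊢
        rw [add_mul, add_comm, exp_add, ← mul_assoc, this, mul_assoc, ← exp_add]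
        simp
      have w1 : p.2.1 ^ 2 + p.2.2 ^ 2 ≤ 1 := by linarith [sq_nonneg ‖p.1‖]
      have := hF t p.2
      rw [e] at this
      have m : ∀ s, |s| ≤ |t| → c + b * (p.2.1 ^ 2 + p.2.2 ^ 2) ≤
          ‖A‖ * √(1 - p.2.1 ^ 2 - p.2.2 ^ 2) * Real.cos s + B * p.2.1 + C * p.2.2 := fun s hs => by
        have := mul_le_mul_of_nonneg_left (Real.cos_le_cos_of_nonneg_of_le_pi (abs_nonneg s)
          (ht ▸ abs_arg_le_pi _) hs) (show 0 ≤ ‖A‖ * √(1 - p.2.1 ^ 2 - p.2.2 ^ 2) by positivity)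
        rw [Real.cos_abs, Real.cos_abs] at this
        linarith
      refine ⟨_, (isPreconnected_Icc (a := -|t|) (b := |t|)).image _ (c2 p.2).continuousOn,
        ⟨t, ⟨neg_abs_le t, le_abs_self t⟩, e⟩, ⟨F 0 p.2, ⟨0, by simp, rfl⟩, (‖p.1‖, p.2),
          ⟨h1.le, by simpa [n] using m 0 (by simp)⟩, rfl⟩, ?_⟩
      rintro _ ⟨s, hs, rfl⟩
      rw [F2, hF]
      exact ⟨hN s _ w1, m s (abs_le.2 hs)⟩
  refine isPreconnected_of_forall_pair fun x hx y hy => ?_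
  obtain ⟨T, t1, t2, t3, t4⟩ := arc x hx.1 hx.2
  obtain ⟨U, u1, u2, u3, u4⟩ := arc y hy.1 hy.2
  refine ⟨T ∪ (fun q => F 0 q.2) '' K ∪ U, union_subset (union_subset t4 ?_) u4, .inl (.inl t2), .inr u2,
    (t1.union' t3 h0).union' (u3.mono fun z hz => ⟨.inr hz.2, hz.1⟩) u1⟩
  rintro _ ⟨q, hq, rfl⟩
  rw [mem_ofPred_eq, F2, hF, Real.cos_zero, mul_one]
  refine ⟨hN 0 _ (by linarith [hq.1, sq_nonneg q.1]), ?_⟩
  have := mul_le_mul_of_nonneg_left (Real.le_sqrt_of_sq_le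
    (show q.1 ^ 2 ≤ 1 - q.2.1 ^ 2 - q.2.2 ^ 2 by linarith [hq.1])) (norm_nonneg A)
  have := hq.2
  linarith

/-- the graph of a quadratic form over the sphere -/
def f (x : Fin 4 → ℝ) : Fin 5 → ℝ := ![x 0, x 1, x 2, x 3, x 0 ^ 2 + x 1 ^ 2]

theorem con (v : Fin 5 → ℝ) (c : ℝ) :
    IsPreconnected {x : Fin 4 → ℝ | ∑ i, x i ^ 2 = 1 ∧ c ≤ ∑ j, v j * f x j} := by
  rcases le_total 0 (v 4) with h | h
  · convert (key ⟨v 0, v 1⟩ (v 2) (v 3) (v 4) (c - v 4) h).image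
      (fun p => ![p.1.re, p.1.im, p.2.1, p.2.2]) (Continuous.continuousOn (by fun_prop)) using 1
    ext x
    simp only [Fin.sum_univ_four, Fin.sum_univ_five, f, mem_ofPred_eq, mem_image, ← normSq_eq_norm_sq,
      normSq_apply]
    constructor
    · rintro ⟨a, b⟩
      refine ⟨(⟨x 0, x 1⟩, x 2, x 3), ⟨by linarith, ?_⟩, by ext i; fin_cases i <;> rfl⟩
      simp at b ⊢
      nlinarith
    · rintro ⟨p, ⟨a, b⟩, rfl⟩
      simp at b ⊢
      exact ⟨by linarith, by nlinarith⟩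
  · convert (key ⟨v 2, v 3⟩ (v 0) (v 1) (-v 4) c (by linarith)).image
      (fun p => ![p.2.1, p.2.2, p.1.re, p.1.im]) (Continuous.continuousOn (by fun_prop)) using 1
    ext x
    simp only [Fin.sum_univ_four, Fin.sum_univ_five, f, mem_ofPred_eq, mem_image, ← normSq_eq_norm_sq,
      normSq_apply]
    constructor
    · rintro ⟨a, b⟩
      refine ⟨(⟨x 2, x 3⟩, x 0, x 1), ⟨by linarith, ?_⟩, by ext i; fin_cases i <;> rfl⟩
      simp at b ⊢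
      linarith
    · rintro ⟨p, ⟨a, b⟩, rfl⟩
      simp at b ⊢
      exact ⟨by linarith, by linarith⟩

theorem main : ContDiff ℝ ((⊤ : ℕ∞) : WithTop ℕ∞) f ∧
      Set.InjOn f {x : Fin 4 → ℝ | ∑ i, x i ^ 2 = 1} ∧
      (∀ x : Fin 4 → ℝ, ∑ i, x i ^ 2 = 1 →
        ∀ w : Fin 4 → ℝ, ∑ i, x i * w i = 0 → fderiv ℝ f x w = 0 → w = 0) ∧
      (∀ v : Fin 5 → ℝ, ∀ c : ℝ,
        IsPreconnected {x : Fin 4 → ℝ |
          ∑ i, x i ^ 2 = 1 ∧ c ≤ ∑ j, v j * f x j}) ∧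
      ¬ ∃ v : Fin 5 → ℝ, v ≠ 0 ∧ ∃ c : ℝ,
        ∀ x : Fin 4 → ℝ, ∑ i, x i ^ 2 = 1 → ∑ j, v j * f x j = c := by
  have hs : ContDiff ℝ ((⊤ : ℕ∞) : WithTop ℕ∞) f := contDiff_pi.2 fun i => by
    fin_cases i <;> simp [f] <;> fun_prop
  have e : ∀ (i : Fin 4) x, f x i.castSucc = x i := fun i x => by fin_cases i <;> rfl
  refine ⟨hs, fun x _ y _ h => funext fun i => by rw [← e i x, h, e], fun x _ w _ h => funext fun i => ?_,
    con, ?_⟩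
  · have := (hasFDerivAt_pi'.1 (hs.differentiable (by simp) x).hasFDerivAt i.castSucc).unique
      (by rw [funext (e i)]; exact hasFDerivAt_apply i x)
    simpa [h] using (congrArg (· w) this).symm
  · rintro ⟨v, hv, c, h⟩
    have a := fun i => h (Pi.single i 1) (by fin_cases i <;> simp [Fin.sum_univ_four])
    have b := fun i => h (Pi.single i (-1)) (by fin_cases i <;> simp [Fin.sum_univ_four])
    have a0 := a 0; have a1 := a 1; have a2 := a 2; have a3 := a 3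
    have b0 := b 0; have b1 := b 1; have b2 := b 2; have b3 := b 3
    simp [Fin.sum_univ_five, f] at a0 a1 a2 a3 b0 b1 b2 b3
    refine hv (funext fun i => ?_)
    fin_cases i <;> simp <;> linarith

end Pool.Agent.H.MP_9de622
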